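import Pool.Agent.L5helper28.IG.Gou

/-!
# Commuting self-adjoint elements of a symplectic Lie algebra which is closed under the adjoint
-/

set_option autoImplicit false
set_option linter.unusedSectionVars false

open Module ComplexConjugate

namespace Pool.Agent.L5helper28.HL

open Pool.Agent.L5helper28.IG (Sy Sk rk S2 rk_apply S2_apply)

noncomputable section

/-- a definite Hermitian form -/
structure Ip (V : Type*) [AddCommGroup V] [Module ℂ V] where
  ip : V → V →ₗ[ℂ] ℂ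
  symm : ∀ u v, conj (ip v u) = ip u v
  definite : ∀ v, ip v v = 0 → v = 0

variable {V : Type*} [AddCommGroup V] [Module ℂ V] {ω : V →ₗ[ℂ] V →ₗ[ℂ] ℂ} (I : Ip V)

namespace Ip

theorem smul_left (c : ℂ) (u v : V) : I.ip (c • u) v = conj c * I.ip u v := by
  rw [← I.symm, map_smul, smul_eq_mul, map_mul, I.symm]

theorem add_left (u u' v : V) : I.ip (u + u') v = I.ip u v + I.ip u' v := by
  rw [← I.symm, map_add, map_add, I.symm, I.symm]

theorem ext {a c : V} (h : ∀ y, I.ip a y = I.ip c y) : a = c := by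
  refine sub_eq_zero.1 (I.definite _ ?_)
  rw [sub_eq_add_neg, I.add_left, ← neg_one_smul ℂ c, I.smul_left, h, map_neg, map_one]
  ring

/-- a symplectic pair -/
def St (ω : V →ₗ[ℂ] V →ₗ[ℂ] ℂ) (x : V × V) : Prop :=
  x.1 ≠ 0 ∧ (∀ y, ω x.1 y = I.ip x.2 y) ∧ ∃ c : ℂ, conj c = c ∧ ∀ y, ω x.2 y = c * I.ip x.1 y

/-- orthogonal pairs -/
def Or (x y : V × V) : Prop :=
  I.ip x.1 y.1 = 0 ∧ I.ip x.1 y.2 = 0 ∧ I.ip x.2 y.1 = 0 ∧ I.ip x.2 y.2 = 0

theorem Or.symm' {x y : V × V} (h : I.Or x y) : I.Or y x := by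
  obtain ⟨h1, h2, h3, h4⟩ := h
  refine ⟨?_, ?_, ?_, ?_⟩
  · rw [← I.symm, h1, map_zero]
  · rw [← I.symm, h3, map_zero]
  · rw [← I.symm, h2, map_zero]
  · rw [← I.symm, h4, map_zero]

variable (hω : Sy ω)
  (hst : ∀ v, ∃ N : End ℂ V, Sk ω N ∧ ∀ u y, I.ip (N u) y = I.ip u (rk ω v v y))

include hω hst

theorem exists_partner {v : V} (hv : v ≠ 0) : ∃ q, I.St ω (v, q) := by
  obtain ⟨N, hN, h1⟩ := hst v
  obtain ⟨m, hm⟩ : ∃ m, m = I.ip v v := ⟨_, rfl⟩
  have hm0 : m ≠ 0 := fun h => hv (I.definite v (by rw [← hm, h]))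
  have hmc : conj m = m := by rw [hm]; exact I.symm v v
  obtain ⟨q, hq⟩ : ∃ q, q = m⁻¹ • N v := ⟨_, rfl⟩
  have h2 : ∀ y, ω v y = I.ip q y := by
    intro y
    rw [hq, I.smul_left, h1, rk_apply, map_smul, smul_eq_mul, map_inv₀, hmc, ← hm, mul_comm,
      mul_assoc, mul_inv_cancel₀ hm0, mul_one]
  have h3 : ∀ u, N u = I.ip v u • q := by
    intro u
    refine I.ext fun y => ?_
    rw [h1, rk_apply, map_smul, smul_eq_mul, I.smul_left, I.symm, h2, mul_comm]
  refine ⟨q, hv, h2, -(I.ip q q) / m, ?_, fun y => ?_⟩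
  · rw [map_div₀, map_neg, I.symm, hmc]
  · have h4 := hN v y
    rw [h3, h3, map_smul, map_smul, LinearMap.smul_apply, smul_eq_mul, smul_eq_mul, h2 q,
      ← hm] at h4
    rw [div_mul_eq_mul_div, eq_div_iff hm0, mul_comm, h4]
    ring

variable [FiniteDimensional ℂ V]

theorem exists_next {l : List (V × V)} (h1 : ∀ x ∈ l, I.St ω x)
    (hn : 2 * l.length < finrank ℂ V) : ∃ x, I.St ω x ∧ ∀ y ∈ l, I.Or x y := by
  let φ : V →ₗ[ℂ] (Fin l.length → ℂ × ℂ) :=
    LinearMap.pi fun k => (I.ip (l.get k).1).prod (I.ip (l.get k).2)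
  have h2 : LinearMap.ker φ ≠ ⊥ := by
    apply LinearMap.ker_ne_bot_of_finrank_lt
    rw [Module.finrank_pi_fintype]
    simp only [Module.finrank_prod, Module.finrank_self, Finset.sum_const, Finset.card_univ,
      Fintype.card_fin, smul_eq_mul]
    omega
  obtain ⟨v, hv, hv0⟩ := Submodule.exists_mem_ne_zero_of_ne_bot h2
  have h3 : ∀ y ∈ l, I.ip y.1 v = 0 ∧ I.ip y.2 v = 0 := by
    intro y hy
    obtain ⟨k, rfl⟩ := List.get_of_mem hy
    have h4 := congrFun (LinearMap.mem_ker.1 hv) k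
    exact ⟨congrArg Prod.fst h4, congrArg Prod.snd h4⟩
  obtain ⟨q, hq⟩ := I.exists_partner hω hst hv0
  refine ⟨(v, q), hq, fun y hy => ?_⟩
  obtain ⟨h4, h5⟩ := h3 y hy
  obtain ⟨-, h6, c, -, h7⟩ := h1 y hy
  refine ⟨?_, ?_, ?_, ?_⟩
  · rw [← I.symm, h4, map_zero]
  · rw [← I.symm, h5, map_zero]
  · have h8 := hq.2.1 y.1
    change ω v y.1 = I.ip q y.1 at h8
    rw [← h8, hω.anti, h6, h5, neg_zero]
  · have h8 := hq.2.1 y.2
    change ω v y.2 = I.ip q y.2 at h8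
    rw [← h8, hω.anti, h7, h4, mul_zero, neg_zero]

theorem exists_list (n : ℕ) (hn : 2 * n ≤ finrank ℂ V) :
    ∃ l : List (V × V), l.length = n ∧ (∀ x ∈ l, I.St ω x) ∧ l.Pairwise I.Or := by
  induction n with
  | zero => exact ⟨[], rfl, fun x hx => absurd hx (by simp), List.Pairwise.nil⟩
  | succ n ih =>
    obtain ⟨l, h1, h2, h3⟩ := ih (by omega)
    obtain ⟨x, h4, h5⟩ := I.exists_next hω hst h2 (by omega)
    refine ⟨x :: l, by rw [List.length_cons, h1], ?_, List.pairwise_cons.2 ⟨h5, h3⟩⟩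
    intro y hy
    rcases List.mem_cons.1 hy with rfl | hy
    · exact h4
    · exact h2 y hy

/-- **Commuting self-adjoint elements.** -/
theorem exists_cartan (n : ℕ) (hn : 2 * n ≤ finrank ℂ V) :
    ∃ a : Fin n → End ℂ V, (∀ k, Sk ω (a k)) ∧ (∀ k u v, I.ip (a k u) v = I.ip u (a k v)) ∧
      (∀ k l, a k * a l = a l * a k) ∧ LinearIndependent ℂ a := by
  obtain ⟨l, rfl, h1, h2⟩ := I.exists_list hω hst n hn
  have hor : ∀ i j : Fin l.length, i ≠ j → I.Or (l.get i) (l.get j) := by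
    intro i j hij
    rcases lt_or_gt_of_ne hij with h | h
    · exact List.pairwise_iff_get.1 h2 i j h
    · exact Or.symm' I (List.pairwise_iff_get.1 h2 j i h)
  have hSt : ∀ i : Fin l.length, I.St ω (l.get i) := fun i => h1 _ (List.get_mem _ _)
  obtain ⟨p, hp⟩ : ∃ p : Fin l.length → V, ∀ k, p k = (l.get k).1 := ⟨_, fun _ => rfl⟩
  obtain ⟨q, hq⟩ : ∃ q : Fin l.length → V, ∀ k, q k = (l.get k).2 := ⟨_, fun _ => rfl⟩
  have a1 : ∀ k y, ω (p k) y = I.ip (q k) y := fun k y => by rw [hp, hq]; exact (hSt k).2.1 y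
  have a2 : ∀ k, ∃ c : ℂ, conj c = c ∧ ∀ y, ω (q k) y = c * I.ip (p k) y := fun k => by
    rw [hp, hq]; exact (hSt k).2.2
  choose c hc a2 using a2
  have a3 : ∀ k, p k ≠ 0 := fun k => by rw [hp]; exact (hSt k).1
  have a4 : ∀ i j, i ≠ j → I.ip (p i) (p j) = 0 ∧ I.ip (p i) (q j) = 0 ∧ I.ip (q i) (p j) = 0 ∧
      I.ip (q i) (q j) = 0 := fun i j hij => by
    rw [hp, hp, hq, hq]; exact hor i j hij
  have a5 : ∀ k y, S2 ω (p k) (q k) y = I.ip (q k) y • q k + (c k * I.ip (p k) y) • p k := by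
    intro k y
    rw [S2_apply, a1, a2]
  have a6 : ∀ i j, i ≠ j → ∀ y, S2 ω (p i) (q i) (S2 ω (p j) (q j) y) = 0 := by
    intro i j hij y
    obtain ⟨b1, b2, b3, b4⟩ := a4 i j hij
    rw [a5 j, map_add, map_smul, map_smul, a5 i, a5 i, b1, b2, b3, b4]
    simp
  refine ⟨fun k => S2 ω (p k) (q k), fun k => hω.sk_S2 _ _, fun k u v => ?_, fun i j => ?_, ?_⟩
  · rw [a5, a5, I.add_left, I.smul_left, I.smul_left, map_add, map_smul, map_smul, map_mul, hc,
      I.symm, I.symm, smul_eq_mul, smul_eq_mul]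
    ring
  · by_cases hij : i = j
    · rw [hij]
    · refine LinearMap.ext fun y => ?_
      rw [End.mul_apply, End.mul_apply, a6 i j hij, a6 j i (Ne.symm hij)]
  · rw [Fintype.linearIndependent_iff]
    intro d hd j
    have b1 := LinearMap.congr_fun hd (p j)
    rw [LinearMap.sum_apply, Finset.sum_eq_single j, LinearMap.smul_apply, a5, ← a1, hω.alt,
      zero_smul, zero_add, smul_smul, LinearMap.zero_apply] at b1
    · have b2 := (smul_eq_zero.1 b1).resolve_right (a3 j)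
      refine (mul_eq_zero.1 b2).resolve_right fun b3 => ?_
      rw [← a2, hω.anti, a1, neg_eq_zero] at b3
      have b4 := I.definite _ b3
      refine a3 j (hω.nd' fun y => ?_)
      rw [a1, b4, ← zero_smul ℂ (0 : V), I.smul_left, map_zero, zero_mul]
    · intro k _ hkj
      obtain ⟨b2, b3, b4, b5⟩ := a4 k j hkj
      rw [LinearMap.smul_apply, a5, b2, b4, zero_smul, mul_zero, zero_smul, add_zero, smul_zero]
    · intro h
      exact absurd (Finset.mem_univ _) h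

end Ip

end

end Pool.Agent.L5helper28.HL
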