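import Pool.Agent.L5helper28.HL.Exc
import Pool.Agent.L5helper28.HL.Ort
import Pool.Agent.L5helper28.IH.Mix

/-!
# Varieties with maximal Hodge groups have simple Lie algebras
-/

set_option autoImplicit false
set_option linter.unusedSectionVars false

open CategoryTheory AlgebraicGeometry TensorProduct ComplexConjugate

universe u

namespace Pool.Agent.L5helper28.HL

open Module
open Pool.Agent.H914 Pool.Agent.H914.VarClass Pool.Agent.H914.VarClass.Obj
  Pool.Agent.H914.WeilCohomology
open Pool.Agent.Y121 Pool.Agent.Y121.AHS Pool.Agent.N996 Pool.Agent.N996.FP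
open Pool.Agent.L5helper28.IF hiding exists_torus exists_star bound exists_exceptional exists_S
open Pool.Agent.L5helper28.IG (gC Sy Sk S2 rk Brs)
open Pool.Agent.L5helper28.IH

noncomputable section

variable {k : Type u} [Field k] {𝒱 : VarClass k} {ops : CycleOps 𝒱} {T : HodgeTheory ops}
  {X : 𝒱.Obj} {w : ℕ}

/-- the restriction of a Hermitian form to a subspace -/
def ipOf {V : Type*} [AddCommGroup V] [Module ℂ V] (c : InnerProductSpace.Core ℂ V)
    (U : Submodule ℂ V) : Ip ↥U where
  ip u :=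
    { toFun := fun v => c.inner (u : V) (v : V)
      map_add' := fun v v' => by
        change c.inner (u : V) ((v : V) + (v' : V)) = _
        rw [← c.conj_inner_symm, c.add_left, map_add, c.conj_inner_symm, c.conj_inner_symm]
      map_smul' := fun t v => by
        change c.inner (u : V) (t • (v : V)) = t * c.inner (u : V) (v : V)
        rw [← c.conj_inner_symm, c.smul_left, map_mul, c.conj_inner_symm, Complex.conj_conj] }
  symm u v := c.conj_inner_symm (u : V) (v : V)
  definite v h := Subtype.ext (c.definite (v : V) h)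

set_option maxHeartbeats 400000

theorem ipOf_apply {V : Type*} [AddCommGroup V] [Module ℂ V] (c : InnerProductSpace.Core ℂ V)
    (U : Submodule ℂ V) (u v : ↥U) : (ipOf c U).ip u v = c.inner (u : V) (v : V) := rfl

theorem li_of {V : Type*} [AddCommGroup V] [Module ℂ V] {U : Submodule ℂ V} {r : ℕ}
    {A : Fin r → End ℂ ↥U} (hA : LinearIndependent ℂ A) {E : Fin r → End ℂ V}
    (h : ∀ k (v : ↥U), E k v = (A k v : V)) : LinearIndependent ℂ E := by
  rw [Fintype.linearIndependent_iff] at hA ⊢
  intro d hd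
  refine hA d ?_
  refine LinearMap.ext fun v => Subtype.ext ?_
  have h1 := LinearMap.congr_fun hd (v : V)
  rw [LinearMap.sum_apply] at h1 ⊢
  rw [Submodule.coe_sum]
  rw [LinearMap.zero_apply] at h1
  change _ = (0 : V)
  rw [← h1]
  refine Finset.sum_congr rfl fun i _ => ?_
  change d i • ((A i v : ↥U) : V) = d i • E i v
  rw [h]

/-- **Varieties with maximal Hodge groups.** -/
theorem simp_max (h : MxC T X w) {r : ℕ} (hr : 2 * r ≤ finrank ℂ ↥(gC T X w)) :
    Simp (LT T) X r := by
  have hperf := fun D hD => perf_max h (D := D) hD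
  obtain ⟨hw, hg, ψ, hψ, hmx⟩ := h
  haveI : FiniteDimensional ℂ (CV T.W X) := Module.Finite.of_basis (rb T.W X)
  have hsy := sy_om hψ hw
  refine ⟨fun I hI hb h0 g hgI => ?_, fun D hD => hperf D hD, fun c hc => ?_⟩
  · -- simple
    let I' : Submodule ℂ (End ℂ ↥(gC T X w)) :=
      { carrier := {A | ∃ E ∈ LT T, (∀ v : ↥(gC T X w), E X v = A v) ∧ E X ∈ I}
        zero_mem' := ⟨0, zero_mem _, fun v => rfl, zero_mem _⟩
        add_mem' := by
          rintro A B ⟨E, hE, h1, h2⟩ ⟨E', hE', h3, h4⟩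
          refine ⟨E + E', add_mem hE hE', fun v => ?_, add_mem h2 h4⟩
          change E X v + E' X v = A v + B v
          rw [h1, h3]
        smul_mem' := by
          rintro c A ⟨E, hE, h1, h2⟩
          refine ⟨c • E, Submodule.smul_mem _ _ hE, fun v => ?_, Submodule.smul_mem _ _ h2⟩
          change c • E X v = c • (A v : CV T.W X)
          rw [h1] }
    obtain ⟨D, hD, hDg⟩ := hgI
    change D X = g at hDg
    subst hDg
    have h1 : rs1 hψ w hD ∈ I' := by
      refine hsy.ideal ?_ ?_ ?_ (sk_LT hψ hD fun v => rs1_apply hψ hD v)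
      · rintro A ⟨E, hE, h1, -⟩
        exact sk_LT hψ hE fun v => (h1 v).symm
      · rintro A hA B ⟨E, hE, h1, h2⟩
        obtain ⟨F, hF, h3⟩ := hmx A hA
        refine ⟨F * E - E * F, LL_br hF hE, fun v => ?_, hb _ ⟨F, hF, rfl⟩ _ h2⟩
        change F X (E X v) - E X (F X v) = A (B v) - B (A v)
        rw [h1, h3, h3, h1]
      · intro hbot
        obtain ⟨y, hy, hy0⟩ := Submodule.exists_mem_ne_zero_of_ne_bot h0
        obtain ⟨E, hE, hEy⟩ := hI y hy
        change E X = y at hEy
        have h2 : rs1 hψ w hE ∈ I' := ⟨E, hE, fun v => (rs1_apply hψ hE v).symm, by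
          rw [hEy]; exact hy⟩
        rw [hbot] at h2
        have h3 := (Submodule.mem_bot ℂ).1 h2
        refine hy0 ?_
        rw [← hEy]
        refine kill_gen hg hE fun v hv => ?_
        have h4 := LinearMap.congr_fun h3 ⟨v, hv⟩
        have h5 := rs1_apply hψ hE (w := w) ⟨v, hv⟩
        rw [h4] at h5
        exact h5.symm
    obtain ⟨E, hE, h2, h3⟩ := h1
    have h4 := kill_gen hg (sub_mem hE hD) (fun v hv => by
      change E X v - D X v = 0
      rw [h2 ⟨v, hv⟩, rs1_apply, sub_self])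
    have h5 : E X = D X := sub_eq_zero.1 h4
    rwa [h5] at h3
  · -- the self-adjoint elements
    let Ic := ipOf c (gC T X w)
    have hstar : ∀ v, ∃ N : End ℂ ↥(gC T X w), Sk (om hψ w) N ∧
        ∀ u y, Ic.ip (N u) y = Ic.ip u (rk (om hψ w) v v y) := by
      intro v
      obtain ⟨D, hD, h1⟩ := hmx _ (hsy.sk_rk v)
      obtain ⟨D', hD', h2⟩ := hc D hD
      refine ⟨rs1 hψ w hD', sk_LT hψ hD' fun v => rs1_apply hψ hD' v, fun u y => ?_⟩
      change c.inner ((rs1 hψ w hD' u : ↥(gC T X w)) : CV T.W X) (y : CV T.W X) =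
        c.inner (u : CV T.W X) ((rk (om hψ w) v v y : ↥(gC T X w)) : CV T.W X)
      rw [rs1_apply, h2, h1]
    obtain ⟨A, hA1, hA2, hA3, hA4⟩ := Ic.exists_cartan hsy hstar r hr
    have hex : ∀ k, ∃ E : Ops fun X : 𝒱.Obj => CV T.W X, E ∈ LT T ∧
        ∀ v : ↥(gC T X w), E X v = A k v := fun k => hmx (A k) (hA1 k)
    choose E hE hEA using hex
    refine ⟨fun k => E k X, fun k => ⟨E k, hE k, rfl⟩, fun i j => ?_, ?_, fun i u v => ?_⟩
    · have h0 : E i * E j - E j * E i ∈ LT T := LL_br (hE i) (hE j)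
      have h2 : ∀ v ∈ gC T X w, (E i * E j - E j * E i) X v = 0 := by
        intro v hv
        change E i X (E j X v) - E j X (E i X v) = 0
        have e1 : E j X v = (A j ⟨v, hv⟩ : ↥(gC T X w)) := hEA j ⟨v, hv⟩
        have e2 : E i X v = (A i ⟨v, hv⟩ : ↥(gC T X w)) := hEA i ⟨v, hv⟩
        rw [e1, e2, hEA i, hEA j]
        have e3 : A i (A j ⟨v, hv⟩) = A j (A i ⟨v, hv⟩) :=
          LinearMap.congr_fun (hA3 i j) ⟨v, hv⟩
        rw [e3, sub_self]
      have h1 : (E i * E j - E j * E i) X = 0 := kill_gen hg h0 h2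
      exact sub_eq_zero.1 h1
    · exact li_of hA4 (E := fun k => E k X) hEA
    · obtain ⟨D', hD', h2⟩ := hc (E i) (hE i)
      have h3 : D' X = E i X := by
        have h4 : (D' - E i) X = 0 := by
          refine kill_gen hg (sub_mem hD' (hE i)) fun v hv => ?_
          change D' X v - E i X v = 0
          have e1 : ((rs1 hψ w hD' ⟨v, hv⟩ : ↥(gC T X w)) : CV T.W X) = D' X v :=
            rs1_apply hψ hD' ⟨v, hv⟩
          have e2 : E i X v = (A i ⟨v, hv⟩ : ↥(gC T X w)) := hEA i ⟨v, hv⟩
          have h5 : rs1 hψ w hD' ⟨v, hv⟩ = A i ⟨v, hv⟩ := by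
            refine Ic.ext fun y => ?_
            rw [hA2]
            change c.inner ((rs1 hψ w hD' ⟨v, hv⟩ : ↥(gC T X w)) : CV T.W X) (y : CV T.W X) =
              c.inner v ((A i y : ↥(gC T X w)) : CV T.W X)
            rw [e1, h2, hEA]
          rw [← e1, h5, e2, sub_self]
        exact sub_eq_zero.1 h4
      rw [← h2, h3]

end

end Pool.Agent.L5helper28.HL
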