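import Pool.Agent.L5helper28.HG.Defs

/-!
# Families and the motives generated by their members: definitions
-/

universe u v

namespace Pool.Agent.L5helper28.HL

open Pool.Agent.Y121.AHS Pool.Agent.H914 Pool.Agent.H914.VarClass.Obj
open Pool.Agent.L5helper28.HG (Alg IsSimple NoMorphisms number IsSummand)

/-- For some numbers `w i`, every member of the family is an elliptic curve or has a maximal Hodge group
in degree `w i` (`IsSimple`), the Betti number of this degree is `b i`, and different members are not
isogenous: there are no morphisms of Hodge structures up to Tate twists between their elements of these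
degrees except zero. -/
def NonIsogenous {K : Type} [Field K] [Algebra K ℂ] {ι : Type v} (M : ι → Alg K) (b : ι → ℕ) : Prop :=
  ∃ w : ι → ℕ, (∀ i, IsSimple (M i) (w i) ∧ number K ((M i).deg (w i)) = b i) ∧
    ∀ i j, i ≠ j → NoMorphisms (M i) (M j) (w i) (w j)

/-- The motive of the variety is in the tensor category generated by the motives of the varieties in `S`
(and the Tate motives): the smallest class of varieties which contains `S` and is closed under products
and direct summands of sums of Tate twists (`IsSummand`). -/
inductive MotiveFrom {k : Type u} [Field k] {𝒱 : VarClass k} {ops : CycleOps 𝒱}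
    (T : HodgeTheory ops) (S : Set 𝒱.Obj) : 𝒱.Obj → Prop
  | of {X : 𝒱.Obj} : X ∈ S → MotiveFrom T S X
  | prod {X Y : 𝒱.Obj} : MotiveFrom T S X → MotiveFrom T S Y → MotiveFrom T S (X.prod Y)
  | mot {m : ℕ} {P : Fin m → 𝒱.Obj} {Q : 𝒱.Obj} : (∀ a, MotiveFrom T S (P a)) →
      IsSummand T P Q → MotiveFrom T S Q

end Pool.Agent.L5helper28.HL
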