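import Pool.Agent.L5helper28.HL.Tor

/-!
# Essential indices with simple Lie algebras
-/

set_option autoImplicit false
set_option linter.unusedSectionVars false

open Module ComplexConjugate

namespace Pool.Agent.L5helper28.HL

open Pool.Agent.L5helper28.IF

noncomputable section

variable {J : Type*} {V : J → Type} [∀ j, AddCommGroup (V j)] [∀ j, Module ℂ (V j)]
  {ι : Type*} {L : Submodule ℂ (Ops V)} {x : ι → J} {z : J} {s : StD (V z)} {S : Set ι} {i : ι}

/-- the operators of the Lie algebra on the space with index `j` -/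
def im (L : Submodule ℂ (Ops V)) (j : J) : Submodule ℂ (End ℂ (V j)) :=
  L.map (LinearMap.proj j)

theorem mem_im {j : J} {a : End ℂ (V j)} : a ∈ im L j ↔ ∃ D ∈ L, D j = a := Iff.rfl

/-- the correspondence between the operators on the two spaces -/
def Rel (L : Submodule ℂ (Ops V)) (x : ι → J) {z : J} (s : StD (V z)) (S : Set ι) (i : ι)
    (a : End ℂ (V (x i))) (q : End ℂ (V z)) : Prop :=
  q ∈ qq L x s S i ∧ ∃ D ∈ JF L x (S \ {i}), D (x i) = a ∧ D z - q ∈ KF L x z S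

theorem JF_of {D : Ops V} (hD : D ∈ JF L x (S \ {i})) (h0 : D (x i) = 0) : D ∈ JF L x S :=
  ⟨hD.1, fun j hj => by
    by_cases hji : j = i
    · rw [hji, h0]
    · exact hD.2 j ⟨hj, hji⟩⟩

theorem qq_zero {w : End ℂ (V z)} (h : w ∈ qq L x s S i) (h' : w ∈ KF L x z S) : w = 0 :=
  s.pos _ (h.2 _ h')

theorem Rel.zero : Rel L x s S i 0 0 :=
  ⟨zero_mem _, 0, zero_mem _, rfl, by
    rw [sub_zero]
    exact zero_mem _⟩

theorem Rel.add {a a' : End ℂ (V (x i))} {q q' : End ℂ (V z)} (h : Rel L x s S i a q)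
    (h' : Rel L x s S i a' q') : Rel L x s S i (a + a') (q + q') := by
  obtain ⟨h1, D, h2, h3, h4⟩ := h
  obtain ⟨h5, E, h6, h7, h8⟩ := h'
  refine ⟨add_mem h1 h5, D + E, add_mem h2 h6, by rw [Pi.add_apply, h3, h7], ?_⟩
  have e : (D + E) z - (q + q') = (D z - q) + (E z - q') := by
    rw [Pi.add_apply]; abel
  rw [e]
  exact add_mem h4 h8

theorem Rel.smul (c : ℂ) {a : End ℂ (V (x i))} {q : End ℂ (V z)} (h : Rel L x s S i a q) :
    Rel L x s S i (c • a) (c • q) := by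
  obtain ⟨h1, D, h2, h3, h4⟩ := h
  refine ⟨Submodule.smul_mem _ _ h1, c • D, Submodule.smul_mem _ _ h2, by
    rw [Pi.smul_apply, h3], ?_⟩
  rw [Pi.smul_apply, ← smul_sub]
  exact Submodule.smul_mem _ _ h4

theorem Rel.uniq {a : End ℂ (V (x i))} {q q' : End ℂ (V z)} (h : Rel L x s S i a q)
    (h' : Rel L x s S i a q') : q = q' := by
  obtain ⟨h1, D, h2, h3, h4⟩ := h
  obtain ⟨h5, E, h6, h7, h8⟩ := h'
  have h9 : D - E ∈ JF L x S := JF_of (sub_mem h2 h6) (by
    rw [Pi.sub_apply, h3, h7, sub_self])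
  have h10 : q - q' ∈ KF L x z S := by
    have e : q - q' = (D - E) z - ((D z - q) - (E z - q')) := by
      rw [Pi.sub_apply]; abel
    rw [e]
    exact sub_mem ⟨_, h9, rfl⟩ (sub_mem h4 h8)
  exact sub_eq_zero.1 (qq_zero (sub_mem h1 h5) h10)

variable (hL : ∀ D ∈ L, ∀ E ∈ L, D * E - E * D ∈ L) (hst : StC L x s S)

include hL hst

theorem Rel.br {a a' : End ℂ (V (x i))} {q q' : End ℂ (V z)} (h : Rel L x s S i a q)
    (h' : Rel L x s S i a' q') : Rel L x s S i (a * a' - a' * a) (q * q' - q' * q) := by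
  obtain ⟨h1, D, h2, h3, h4⟩ := h
  obtain ⟨h5, E, h6, h7, h8⟩ := h'
  have g1 : q ∈ KF L x z ∅ := KF_mono (Set.empty_subset _) h1.1
  have g5 : q' ∈ KF L x z ∅ := KF_mono (Set.empty_subset _) h5.1
  refine ⟨qq_br hL hst g1 h5, D * E - E * D, ⟨hL D h2.1 E h6.1, fun j hj => ?_⟩, ?_, ?_⟩
  · rw [Pi.sub_apply, Pi.mul_apply, Pi.mul_apply, h2.2 j hj, zero_mul, mul_zero, sub_zero]
  · rw [Pi.sub_apply, Pi.mul_apply, Pi.mul_apply, h3, h7]
  · -- the mixed terms
    obtain ⟨k, hk⟩ : ∃ k, k = D z - q := ⟨_, rfl⟩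
    obtain ⟨k', hk'⟩ : ∃ k', k' = E z - q' := ⟨_, rfl⟩
    rw [← hk] at h4
    rw [← hk'] at h8
    have e1 : D z = q + k := by rw [hk]; abel
    have e2 : E z = q' + k' := by rw [hk']; abel
    have g4 : k ∈ KF L x z ∅ := KF_mono (Set.empty_subset _) h4
    have e : (D * E - E * D) z - (q * q' - q' * q) =
        (q * k' - k' * q) - (q' * k - k * q') + (k * k' - k' * k) := by
      rw [Pi.sub_apply, Pi.mul_apply, Pi.mul_apply, e1, e2]
      noncomm_ring
    rw [e]
    exact add_mem (sub_mem (KF_br hL g1 h8) (KF_br hL g5 h4)) (KF_br hL g4 h8)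

theorem Rel.exists_q (hind : Ind L x S) (hi : i ∈ S) {a : End ℂ (V (x i))} (ha : a ∈ im L (x i)) :
    ∃ q, Rel L x s S i a q := by
  obtain ⟨D, hD, rfl⟩ := ha
  obtain ⟨E, hE, h1⟩ := hind i hi D hD
  obtain ⟨k, hk, h2⟩ := s.proj (KF L x z S) (E z)
  refine ⟨E z - k, ⟨sub_mem ⟨_, hE, rfl⟩ (KF_mono Set.diff_subset hk), h2⟩, E, hE, h1, ?_⟩
  rw [sub_sub_cancel]
  exact hk

/-- the correspondence is injective if the Lie algebra is simple -/
theorem Rel.inj (hind : Ind L x S) (hi : i ∈ S)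
    (hne : KF L x z (S \ {i}) ≠ KF L x z S)
    (hs : ∀ I : Submodule ℂ (End ℂ (V (x i))), (∀ w ∈ I, w ∈ im L (x i)) →
      (∀ g ∈ im L (x i), ∀ w ∈ I, g * w - w * g ∈ I) → I ≠ ⊥ → ∀ g ∈ im L (x i), g ∈ I)
    {a : End ℂ (V (x i))} (h : Rel L x s S i a 0) : a = 0 := by
  by_contra ha
  let I : Submodule ℂ (End ℂ (V (x i))) :=
    { carrier := {a | Rel L x s S i a 0}
      zero_mem' := Rel.zero
      add_mem' := fun {a b} ha hb => by
        have h1 := Rel.add ha hb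
        rwa [add_zero] at h1
      smul_mem' := fun c a ha => by
        have h1 := Rel.smul c ha
        rwa [smul_zero] at h1 }
  have h1 : ∀ g ∈ im L (x i), g ∈ I := by
    refine hs I ?_ ?_ ?_
    · rintro w ⟨-, D, h2, h3, -⟩
      exact ⟨D, h2.1, h3⟩
    · intro g hg w hw
      obtain ⟨q, hq⟩ := Rel.exists_q hL hst hind hi hg
      have h2 := Rel.br hL hst hq hw
      rw [mul_zero, zero_mul, sub_zero] at h2
      exact h2
    · intro h0
      have h2 : a ∈ I := h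
      rw [h0, Submodule.mem_bot] at h2
      exact ha h2
  apply hne
  refine le_antisymm ?_ (KF_mono Set.diff_subset)
  rintro _ ⟨D, hD, rfl⟩
  obtain ⟨-, E, h2, h3, h4⟩ := h1 (D (x i)) ⟨D, hD.1, rfl⟩
  rw [sub_zero] at h4
  have h5 : D - E ∈ JF L x S := JF_of (sub_mem hD h2) (by
    rw [Pi.sub_apply, h3, sub_self])
  have h6 : (D - E) z ∈ KF L x z S := ⟨_, h5, rfl⟩
  have h7 := add_mem h6 h4
  rwa [Pi.sub_apply, sub_add_cancel] at h7

/-- **Essential indices with simple Lie algebras.** -/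
theorem cart_of (hind : Ind L x S) (hi : i ∈ S) (hne : KF L x z (S \ {i}) ≠ KF L x z S)
    (hs : ∀ I : Submodule ℂ (End ℂ (V (x i))), (∀ w ∈ I, w ∈ im L (x i)) →
      (∀ g ∈ im L (x i), ∀ w ∈ I, g * w - w * g ∈ I) → I ≠ ⊥ → ∀ g ∈ im L (x i), g ∈ I)
    (hp : ∀ D ∈ L, D (x i) ∈ Submodule.span ℂ
      {w | ∃ A ∈ L, ∃ B ∈ L, w = A (x i) * B (x i) - B (x i) * A (x i)})
    {r : ℕ} {a : Fin r → End ℂ (V (x i))} (ha : ∀ k, a k ∈ im L (x i))
    (hc : ∀ k l, a k * a l = a l * a k) (hli : LinearIndependent ℂ a)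
    (hsa : ∀ k, ∀ D ∈ L, D (x i) = a k → ∃ D' ∈ L, D' (x i) = a k ∧ D' z = s.st (D z) ∧
      ∀ j, D j = 0 → D' j = 0) : Cart L x s S i r := by
  choose q hq using fun k => Rel.exists_q (z := z) (s := s) hL hst hind hi (ha k)
  refine ⟨q, fun k => ⟨(hq k).1, ?_⟩, fun k l => ?_, ?_, fun k y hy => ?_⟩
  · -- self-adjoint
    refine Rel.uniq (a := a k) ?_ (hq k)
    obtain ⟨h1, D, h2, h3, h4⟩ := hq k
    obtain ⟨D', h5, h6, h7, h8⟩ := hsa k D h2.1 h3
    refine ⟨qq_st hL hst h1, D', ⟨h5, fun j hj => h8 _ (h2.2 j hj)⟩, h6, ?_⟩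
    rw [h7, ← s.sub]
    exact KF_st hst le_rfl h4
  · -- commuting
    have h1 := Rel.br hL hst (hq k) (hq l)
    rw [hc k l, sub_self] at h1
    exact sub_eq_zero.1 (Rel.uniq h1 Rel.zero)
  · -- linearly independent
    rw [Fintype.linearIndependent_iff]
    intro c hc0
    have h1 : ∀ F : Finset (Fin r), Rel L x s S i (∑ k ∈ F, c k • a k) (∑ k ∈ F, c k • q k) := by
      intro F
      classical
      induction F using Finset.induction_on with
      | empty => rw [Finset.sum_empty, Finset.sum_empty]; exact Rel.zero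
      | insert k F hk ih =>
        rw [Finset.sum_insert hk, Finset.sum_insert hk]
        exact ((hq k).smul (c k)).add ih
    have h2 := h1 Finset.univ
    rw [hc0] at h2
    exact Fintype.linearIndependent_iff.1 hli c (Rel.inj hL hst hind hi hne hs h2)
  · -- orthogonal to the centraliser
    obtain ⟨D, hD, h1⟩ := ha k
    have h2 := hp D hD
    change D (x i) = a k at h1
    rw [h1] at h2
    have h3 : ∀ w ∈ Submodule.span ℂ
        {w | ∃ A ∈ L, ∃ B ∈ L, w = A (x i) * B (x i) - B (x i) * A (x i)},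
        ∃ q', Rel L x s S i w q' ∧ tr (q' * y) = 0 := by
      intro w hw
      induction hw using Submodule.span_induction with
      | mem w hw =>
        obtain ⟨A, hA, B, hB, rfl⟩ := hw
        obtain ⟨u, hu⟩ := Rel.exists_q (z := z) (s := s) hL hst hind hi ⟨A, hA, rfl⟩
        obtain ⟨v, hv⟩ := Rel.exists_q (z := z) (s := s) hL hst hind hi ⟨B, hB, rfl⟩
        refine ⟨u * v - v * u, hu.br hL hst hv, ?_⟩
        rw [← tr_br, hy v hv.1, sub_self, mul_zero, map_zero]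
      | zero => exact ⟨0, Rel.zero, by rw [zero_mul, map_zero]⟩
      | add w w' _ _ h h' =>
        obtain ⟨u, hu, h1⟩ := h
        obtain ⟨v, hv, h2⟩ := h'
        exact ⟨u + v, hu.add hv, by rw [add_mul, map_add, h1, h2, add_zero]⟩
      | smul c w _ h =>
        obtain ⟨u, hu, h1⟩ := h
        exact ⟨c • u, hu.smul c, by rw [smul_mul_assoc, map_smul, h1, smul_zero]⟩
    obtain ⟨q', h4, h5⟩ := h3 _ h2
    rw [(hq k).uniq h4]
    exact h5

end

end Pool.Agent.L5helper28.HL
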