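import Pool.Agent.L5helper28.IF.Tran

/-!
# The adjoints on two spaces
-/

set_option autoImplicit false
set_option linter.unusedSectionVars false

open Module ComplexConjugate

namespace Pool.Agent.L5helper28.HL

open Pool.Agent.L5helper28.IF
open Pool.Agent.N179.DB (sl sl_smul sl_basis sl_comp sl_refl sl_symm sl_symm' sl_inj repr_sl)

noncomputable section

variable {J : Type*} {V : J → Type} [∀ j, AddCommGroup (V j)] [∀ j, Module ℂ (V j)]
  {β : J → Type} [∀ j, Fintype (β j)] {b : ∀ j, Basis (β j) ℂ (V j)} {H : Ops V}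

/-- the conjugate operator -/
def adjo (b : ∀ j, Basis (β j) ℂ (V j)) (H : Ops V) (p : Polynomial ℂ) (D : Ops V) : Ops V :=
  -fun j => cjg (b j) cc (((Polynomial.aeval (adh H) p) D) j)

theorem adjo_mem (p : Polynomial ℂ) {D : Ops V} (hD : D ∈ LL (hh b H)) :
    adjo b H p D ∈ LL (hh b H) := neg_mem (cjg_mem b H cc (aeval_adh_mem hD p))

theorem adjo_zero (p : Polynomial ℂ) {D : Ops V} {j : J} (hj : D j = 0) : adjo b H p D j = 0 := by
  change -cjg (b j) cc (((Polynomial.aeval (adh H) p) D) j) = 0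
  rw [aeval_adh_zero hj, cjg_zero, neg_zero]

/-- the conjugation by the Weil operator -/
theorem adC_of {z : J} {n : ℕ} {e : Basis (Fin n) ℂ (V z)} {w : Fin n → ℤ}
    (he : ∀ i, H z (e i) = (w i : ℂ) • e i) {p : Polynomial ℂ}
    (hp : ∀ i k, p.eval ((w i - w k : ℤ) : ℂ) = Complex.I ^ (w i - w k)) (D : Ops V) :
    ((Polynomial.aeval (adh H) p) D) z =
      dg e w (fun m => Complex.I ^ m) * D z * dg e w (fun m => Complex.I ^ (-m)) := by
  refine e.ext fun i => ?_
  rw [aeval_adh_apply (he i), End.mul_apply, End.mul_apply, dg_basis, map_smul, map_smul]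
  conv_lhs => rw [← e.sum_repr (D z (e i))]
  conv_rhs => rw [← e.sum_repr (D z (e i))]
  rw [map_sum, map_sum, Finset.smul_sum]
  refine Finset.sum_congr rfl fun k _ => ?_
  rw [map_smul, map_smul, dg_basis]
  have h1 : (H z - (w i : ℂ) • (1 : End ℂ (V z))) (e k) = ((w k - w i : ℤ) : ℂ) • e k := by
    rw [LinearMap.sub_apply, he, LinearMap.smul_apply, End.one_apply, ← sub_smul, Int.cast_sub]
  rw [aeval_eig h1, hp, smul_smul, smul_smul, smul_smul]
  congr 1
  rw [sub_eq_add_neg, zpow_add₀ Complex.I_ne_zero]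
  ring

theorem adjo_inner {z : J} (P : PolS (b z) (H z)) {n : ℕ} {e : Basis (Fin n) ℂ (V z)}
    {w : Fin n → ℤ} (he : ∀ i, H z (e i) = (w i : ℂ) • e i) {p : Polynomial ℂ}
    (hp : ∀ i k, p.eval ((w i - w k : ℤ) : ℂ) = Complex.I ^ (w i - w k)) {D : Ops V}
    (hD : D ∈ LL (hh b H)) (u v : V z) :
    (core P he).inner (adjo b H p D z u) v = (core P he).inner u (D z v) := by
  have h1 := aeval_adh_mem hD p
  change P.B (dg e w (fun m => Complex.I ^ m) v) (sl (b z) cc
    (-(sl (b z) cc ((((Polynomial.aeval (adh H) p) D) z) (sl (b z) cc.symm u))))) =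
    P.B (dg e w (fun m => Complex.I ^ m) (D z v)) (sl (b z) cc u)
  rw [map_neg, sl_cc, map_neg, cc_symm, ← skew_LL P h1, adC_of he hp, End.mul_apply,
    End.mul_apply, ← End.mul_apply (dg e w fun m => Complex.I ^ (-m)), dg_mul]
  have h5 : (fun k : ℤ => Complex.I ^ (-k) * Complex.I ^ k) = fun _ => 1 := by
    funext k
    rw [← zpow_add₀ Complex.I_ne_zero, neg_add_cancel, zpow_zero]
  rw [h5, dg_one]

theorem core_ext {z : J} (P : PolS (b z) (H z)) {n : ℕ} {e : Basis (Fin n) ℂ (V z)}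
    {w : Fin n → ℤ} (he : ∀ i, H z (e i) = (w i : ℂ) • e i) {a c : V z}
    (h : ∀ v, (core P he).inner a v = (core P he).inner c v) : a = c := by
  refine sub_eq_zero.1 ((core P he).definite _ ?_)
  have h7 : ∀ v, (core P he).inner (a - c) v =
      (core P he).inner a v - (core P he).inner c v := by
    intro v
    change sq P e w (a - c) v = sq P e w a v - sq P e w c v
    rw [sub_eq_add_neg, sq_add_left, ← neg_one_smul ℂ c, sq_smul_left, map_neg, map_one,
      neg_one_mul, ← sub_eq_add_neg]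
  rw [h7, h, sub_self]

/-- **The adjoints.** -/
theorem exists_star {z : J} (P : PolS (b z) (H z)) : ∃ s : StD (V z),
    (∀ D ∈ LL (hh b H), ∃ D' ∈ LL (hh b H), D' z = s.st (D z) ∧ ∀ j, D j = 0 → D' j = 0) ∧
    ∀ j, PolS (b j) (H j) → ∃ c : InnerProductSpace.Core ℂ (V j), ∀ D ∈ LL (hh b H),
      ∃ D' ∈ LL (hh b H), D' z = s.st (D z) ∧ (∀ k, D k = 0 → D' k = 0) ∧
        ∀ u v, c.inner (D' j u) v = c.inner u (D j v) := by
  classical
  haveI : FiniteDimensional ℂ (V z) := Module.Finite.of_basis (b z)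
  obtain ⟨n, e, w, he⟩ := exists_eigenbasis P.diag
  obtain ⟨s, hs⟩ := exists_std (V z) (core P he)
  have key : ∀ p : Polynomial ℂ,
      (∀ i k, p.eval ((w i - w k : ℤ) : ℂ) = Complex.I ^ (w i - w k)) →
      ∀ D ∈ LL (hh b H), adjo b H p D z = s.st (D z) := by
    intro p hp D hD
    refine LinearMap.ext fun u => core_ext P he fun v => ?_
    rw [adjo_inner P he hp hD, hs]
  refine ⟨s, fun D hD => ?_, fun j Q => ?_⟩
  · obtain ⟨p, hp⟩ := exists_poly (Finset.univ.image fun r : Fin n × Fin n => w r.1 - w r.2)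
      fun k => Complex.I ^ k
    exact ⟨adjo b H p D, adjo_mem p hD, key p (fun i k => hp _
      (Finset.mem_image.2 ⟨(i, k), Finset.mem_univ _, rfl⟩)) D hD, fun j hj => adjo_zero p hj⟩
  · haveI : FiniteDimensional ℂ (V j) := Module.Finite.of_basis (b j)
    obtain ⟨m, f, v, hf⟩ := exists_eigenbasis Q.diag
    obtain ⟨p, hp⟩ := exists_poly ((Finset.univ.image fun r : Fin n × Fin n => w r.1 - w r.2) ∪
      Finset.univ.image fun r : Fin m × Fin m => v r.1 - v r.2) fun k => Complex.I ^ k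
    refine ⟨core Q hf, fun D hD => ⟨adjo b H p D, adjo_mem p hD, key p (fun i k => hp _
      (Finset.mem_union_left _ (Finset.mem_image.2 ⟨(i, k), Finset.mem_univ _, rfl⟩))) D hD,
      fun j hj => adjo_zero p hj, fun a c => adjo_inner Q hf (fun i k => hp _
      (Finset.mem_union_right _ (Finset.mem_image.2 ⟨(i, k), Finset.mem_univ _, rfl⟩))) hD a c⟩⟩

end

end Pool.Agent.L5helper28.HL
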