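import Pool.Agent.L5helper28.HL.Ess
import Pool.Agent.L5helper28.HL.Str
import Pool.Agent.L5helper28.IF.Thm

/-!
# The exceptional indices, counted with the ranks
-/

set_option autoImplicit false
set_option linter.unusedSectionVars false

open Module ComplexConjugate

namespace Pool.Agent.L5helper28.HL

open Pool.Agent.L5helper28.IF hiding exists_torus exists_star bound exists_exceptional

noncomputable section

variable {J : Type*} {V : J → Type} [∀ j, AddCommGroup (V j)] [∀ j, Module ℂ (V j)]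
  {β : J → Type} [∀ j, Fintype (β j)] {b : ∀ j, Basis (β j) ℂ (V j)} {H : Ops V}

/-- The Lie algebra of the operators on the space with index `j` is simple, perfect, and contains `r`
commuting self-adjoint operators. -/
structure Simp (L : Submodule ℂ (Ops V)) (j : J) (r : ℕ) : Prop where
  simple : ∀ I : Submodule ℂ (End ℂ (V j)), (∀ w ∈ I, w ∈ im L j) →
    (∀ g ∈ im L j, ∀ w ∈ I, g * w - w * g ∈ I) → I ≠ ⊥ → ∀ g ∈ im L j, g ∈ I
  perf : ∀ D ∈ L, D j ∈ Submodule.span ℂ {w | ∃ A ∈ L, ∃ B ∈ L, w = A j * B j - B j * A j}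
  cart : ∀ c : InnerProductSpace.Core ℂ (V j), (∀ D ∈ L, ∃ D' ∈ L,
    ∀ u v, c.inner (D' j u) v = c.inner u (D j v)) →
      ∃ a : Fin r → End ℂ (V j), (∀ k, a k ∈ im L j) ∧ (∀ k l, a k * a l = a l * a k) ∧
        LinearIndependent ℂ a ∧ ∀ k u v, c.inner (a k u) v = c.inner u (a k v)

theorem core_ext' {V : Type*} [AddCommGroup V] [Module ℂ V] (c : InnerProductSpace.Core ℂ V)
    {a d : V} (h : ∀ v, c.inner a v = c.inner d v) : a = d := by
  refine sub_eq_zero.1 (c.definite _ ?_)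
  have h1 : ∀ v, c.inner (a - d) v = c.inner a v - c.inner d v := by
    intro v
    have h2 := c.add_left (a - d) d v
    rw [sub_add_cancel] at h2
    rw [h2, add_sub_cancel_right]
  rw [h1, h, sub_self]

/-- **The exceptional indices for polarised Hodge structures.** -/
theorem exists_S {ι : Type*} {x : ι → J} {z : J} (P : PolS (b z) (H z))
    (Q : ∀ i, PolS (b (x i)) (H (x i)))
    (hind : ∀ F : Finset ι, Ind (LL (hh b H)) x (F : Set ι)) (r : ι → ℕ)
    (hr : ∀ i, r i ≤ 1 ∨ Simp (LL (hh b H)) (x i) (r i)) {V0 : Submodule ℂ (V z)}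
    (h0 : ∀ D ∈ LL (hh b H), ∀ v ∈ V0, D z v = 0) :
    ∃ S : Finset ι, 2 * ∑ i ∈ S, r i + finrank ℂ V0 ≤ finrank ℂ (V z) ∧
      ∀ F : Finset ι, Disjoint F S → ∀ D ∈ LL (hh b H), ∃ D' ∈ LL (hh b H),
        (∀ i ∈ F, D' (x i) = D (x i)) ∧ (∀ i ∈ S, D' (x i) = 0) ∧ D' z = 0 := by
  classical
  haveI : FiniteDimensional ℂ (V z) := Module.Finite.of_basis (b z)
  obtain ⟨s, hs, hs2⟩ := exists_star P
  have hL : ∀ D ∈ LL (hh b H), ∀ E ∈ LL (hh b H), D * E - E * D ∈ LL (hh b H) :=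
    fun D hD E hE => LL_br hD hE
  have hst : ∀ F : Finset ι, StC (LL (hh b H)) x s (F : Set ι) := fun F D hD => by
    obtain ⟨D', h1, h2, h3⟩ := hs D hD
    exact ⟨D', h1, h2, fun i _ => h3 (x i)⟩
  have hex : ∃ n, ∃ F : Finset ι, finrank ℂ (KF (LL (hh b H)) x z (F : Set ι)) = n := ⟨_, ∅, rfl⟩
  obtain ⟨F0, hF0⟩ := Nat.find_spec hex
  have hmin : ∀ F : Finset ι, finrank ℂ (KF (LL (hh b H)) x z (F0 : Set ι)) ≤
      finrank ℂ (KF (LL (hh b H)) x z (F : Set ι)) := fun F => by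
    rw [hF0]
    exact Nat.find_min' hex ⟨F, rfl⟩
  have hF : ∀ F : Finset ι, (F0 : Set ι) ⊆ F →
      KF (LL (hh b H)) x z (F : Set ι) = KF (LL (hh b H)) x z (F0 : Set ι) := fun F hF =>
    Submodule.eq_of_le_of_finrank_le (KF_mono hF) (hmin F)
  have hex' : ∃ n, ∃ S : Finset ι,
      KF (LL (hh b H)) x z (S : Set ι) = KF (LL (hh b H)) x z (F0 : Set ι) ∧ S.card = n :=
    ⟨_, F0, rfl, rfl⟩
  obtain ⟨S, hS, hSc⟩ := Nat.find_spec hex'
  have hne : ∀ i ∈ S, KF (LL (hh b H)) x z ((S : Set ι) \ {i}) ≠ KF (LL (hh b H)) x z S := by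
    intro i hi h1
    have h2 : Nat.find hex' ≤ (S.erase i).card := by
      refine Nat.find_min' hex' ⟨S.erase i, ?_, rfl⟩
      rw [← hS, ← h1, Finset.coe_erase]
    rw [← hSc] at h2
    have h3 := Finset.card_erase_lt_of_mem hi
    omega
  have hcart : ∀ i ∈ S, r i ≤ 1 ∨ Cart (LL (hh b H)) x s (S : Set ι) i (r i) := by
    intro i hi
    refine (hr i).imp_right fun h => ?_
    obtain ⟨c, hc⟩ := hs2 (x i) (Q i)
    obtain ⟨a, h1, h2, h3, h4⟩ := h.cart c fun D hD => by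
      obtain ⟨D', h1, -, -, h2⟩ := hc D hD
      exact ⟨D', h1, h2⟩
    refine cart_of hL (hst S) (hind S) hi (hne i hi) h.simple h.perf h1 h2 h3 ?_
    intro k D hD hk
    obtain ⟨D', h5, h6, h7, h8⟩ := hc D hD
    refine ⟨D', h5, LinearMap.ext fun u => core_ext' c fun v => ?_, h6, h7⟩
    rw [h8, hk, h4]
  have hbound : 2 * ∑ i ∈ S, r i + finrank ℂ V0 ≤ finrank ℂ (V z) := by
    obtain ⟨κ, hκ, T, h1, h2, h3, h4⟩ := exists_torus hL (hst S) r hcart
      fun A hAS hA => card_le_center (hst S) (hind S) hne (trSt P) (fun i _ => trSt (Q i)) hAS hA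
    have h5 : ∀ i, ∃ D ∈ LL (hh b H), D z = T i := fun i => by
      obtain ⟨D, hD, h⟩ := (h2 i).1
      exact ⟨D, hD.1, h⟩
    have h6 := rank_lemma s (B_nondeg P) (fun i => (h2 i).2) h3 h4 (fun i u v => by
      obtain ⟨D, hD, h⟩ := h5 i
      rw [← h]
      exact skew_LL P hD u v) (V0 := V0) (fun i v hv => by
      obtain ⟨D, hD, h⟩ := h5 i
      rw [← h]
      exact h0 D hD v hv)
    omega
  have hfix : ∀ F : Finset ι, KF (LL (hh b H)) x z ((S : Set ι) ∪ F) =
      KF (LL (hh b H)) x z (S : Set ι) := by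
    intro F
    refine le_antisymm (KF_mono Set.subset_union_left) ?_
    have h1 := hF (F0 ∪ (S ∪ F)) (by
      rw [Finset.coe_union]
      exact Set.subset_union_left)
    rw [hS, ← h1]
    refine KF_mono ?_
    rw [Finset.coe_union, Finset.coe_union]
    exact Set.subset_union_right
  exact ⟨S, hbound, fun F hF D hD => exists_split hfix hind hF hD⟩

end

end Pool.Agent.L5helper28.HL
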