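import Pool.Agent.L5helper28.HL.Main
import Pool.Agent.L5helper28.HI.MMain

/-!
# The theorem on motivated classes, with the bound by Betti numbers
-/

set_option autoImplicit false
set_option linter.unusedSectionVars false

open CategoryTheory AlgebraicGeometry TensorProduct

universe u v

namespace Pool.Agent.L5helper28.HL

open Module
open Pool.Agent.H914 Pool.Agent.H914.VarClass Pool.Agent.H914.VarClass.Obj
  Pool.Agent.H914.WeilCohomology
open Pool.Agent.Y121 Pool.Agent.Y121.AHS Pool.Agent.N996 Pool.Agent.N996.FP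
open Pool.Agent.Y133.Half (pw ClassPred Sys)
open Pool.Agent.R920.MT (motPred)
open Pool.Agent.L5helper28.CA (AllIn prod_in snd_in split_in sum_of one_pw pw_prod_iff)
open Pool.Agent.L5helper28.IF (Spl)
open Pool.Agent.L5helper28.HI (MTIsMotivic Kunneth AllMotivated Motivated mot_hodge mot_ex mot_iff
  mt_iff all_iff)
open Pool.Agent.L5helper28.HG (coh AlgebraicIn Polarised Independent hodgeNumber
  Built IsNonzero polarised_of built_of)

noncomputable section

variable {k : Type u} [Field k] {𝒱 : VarClass k} {ops : CycleOps 𝒱} {T : HodgeTheory ops}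

/-- **The theorem on motivated classes.** -/
theorem mot_main (hL : ∀ V, AlgebraicIn T V 1) {ι : Type v} (X : ι → 𝒱.Obj) (b : ι → ℕ)
    (hX : ∀ i, Polarised (coh T (X i)))
    (h : NonIsogenous (fun i => coh T (X i)) b ∨
      Independent (fun i => coh T (X i)) ∧ ∀ i, b i = 2 ∧ MTIsMotivic T (X i)) (Z : 𝒱.Obj)
    (hZ : Polarised (coh T Z)) : ∃ S : Finset ι,
      ∑ i ∈ S, b i + hodgeNumber T Z ≤ HG.betti T Z ∧ ∀ P Y : 𝒱.Obj,
      HI.MotiveFrom T (X '' {i | i ∉ S}) P → Built T (insert Z (X '' {i | i ∈ S})) Y →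
      IsNonzero (T.W.H P) →
        MTIsMotivic T P ∧ Kunneth T P Y ∧
        (MTIsMotivic T (P.prod Y) ↔ MTIsMotivic T Y) ∧
        (Y.dim ≤ 3 → AllMotivated T (P.prod Y)) := by
  have hX' := fun i => polarised_of (hX i)
  obtain ⟨hind, hg, hr⟩ := family (Q := motPred T.W) hL hX'
    (h.imp_right fun h => ⟨h.1, fun i => ⟨(h.2 i).1, fun n => all_iff.1 ((h.2 i).2 n)⟩⟩)
  obtain ⟨S, h2, h3⟩ := general (Q := motPred T.W) mot_hodge X hX' hind hg (fun i => b i / 2)
    (fun i => (hr i).2) (polarised_of hZ)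
  rw [half_sum fun i => (hr i).1] at h2
  refine ⟨S, number_le h2, fun P Y hP hY hP1 => ?_⟩
  have h4 := h3 P Y (HI.fr_of hP) (built_of hY)
  refine ⟨mt_iff.2 fun n => (h4 n).1, fun c hc => ?_, ?_, fun hd => ?_⟩
  · obtain ⟨j, hc⟩ := mot_ex hc
    have h5 := split_in (Q := motPred T.W) mot_hodge (h4 0).2 (h4 0).1
      (ClassPred.sp_of (Q := motPred T.W) hc)
    have h6 := sum_of (Q := motPred T.W) (M := {a | Motivated T a})
      (N := {b | Motivated T b}) (fun a i ha => ⟨i, mot_iff.1 ha⟩) (fun b i hb => ⟨i, mot_iff.1 hb⟩) h5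
    refine Submodule.span_mono ?_ h6
    rintro x ⟨a, ha, b, hb, rfl⟩
    exact ⟨a, b, ha, hb, rfl⟩
  · rw [mt_iff, mt_iff]
    exact ⟨fun h n => snd_in (one_pw hP1 n) ((pw_prod_iff (Q := motPred T.W) n).1 (h n)),
      fun h n => (pw_prod_iff (Q := motPred T.W) n).2 (prod_in (h4 n).2 (h4 n).1 (h n))⟩
  · rw [all_iff]
    refine prod_in (Q := motPred T.W) (h4 0).2 (h4 0).1 (HD.allIn_three ?_ hd)
    intro c hc
    obtain ⟨z, hz, rfl⟩ := hL Y c hc
    exact (motPred T.W).cl hz

end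

end Pool.Agent.L5helper28.HL
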