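import Pool.Agent.L5helper28.HL.Car
import Pool.Agent.L5helper28.HI.Gen

/-!
# Exceptional members, counted with Betti numbers
-/

set_option autoImplicit false
set_option linter.unusedSectionVars false

open CategoryTheory AlgebraicGeometry TensorProduct

universe u v

namespace Pool.Agent.L5helper28.HL

open Module
open Pool.Agent.H914 Pool.Agent.H914.VarClass Pool.Agent.H914.VarClass.Obj
  Pool.Agent.H914.WeilCohomology
open Pool.Agent.Y121 Pool.Agent.Y121.AHS Pool.Agent.N996 Pool.Agent.N996.FP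
open Pool.Agent.L5helper28.IF hiding exists_torus exists_star bound exists_exceptional exists_S
open Pool.Agent.L5helper28.IG (gC Sy Sk)
open Pool.Agent.L5helper28.IH (MxC om sy_om)
open Pool.Agent.L5helper28.HI (Fr)
open Pool.Agent.L5helper28.CA (AllIn)
open Pool.Agent.Y133.Half (pw ClassPred)

noncomputable section

variable {k : Type u} [Field k] {𝒱 : VarClass k} {ops : CycleOps 𝒱} {T : HodgeTheory ops}
  {X : 𝒱.Obj} {w : ℕ}

set_option maxHeartbeats 400000

/-- symplectic spaces have even dimension -/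
theorem even_sy {V : Type} [AddCommGroup V] [Module ℂ V] [FiniteDimensional ℂ V]
    {ω : V →ₗ[ℂ] V →ₗ[ℂ] ℂ} (h : Sy ω) : Even (finrank ℂ V) := by
  obtain ⟨R, i1, i2, e, inv, jj, hinv, hne, hjj, hj1, hω⟩ :=
    Pool.Agent.W529.Ta.exists_darboux (finrank ℂ V) V ω h.alt h.nd le_rfl
  rw [finrank_eq_card_basis e, ← ZMod.natCast_eq_zero_iff_even]
  have h1 : ((Fintype.card R : ℕ) : ZMod 2) = ∑ x : R, (1 : ZMod 2) := by
    rw [Finset.sum_const, Finset.card_univ, nsmul_eq_mul, mul_one]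
  rw [h1]
  refine Finset.sum_involution (fun x _ => inv x) ?_ ?_ ?_ ?_
  · intro x _
    rfl
  · intro x _ _
    exact hne x
  · intro x _
    exact Finset.mem_univ _
  · intro x _
    exact hinv x

theorem finrank_gC (X : 𝒱.Obj) (w : ℕ) : finrank ℂ ↥(gC T X w) = finrank T.W.K (T.W.gr X w) :=
  finrank_base _

theorem even_gr (h : MxC T X w) : Even (finrank T.W.K (T.W.gr X w)) := by
  obtain ⟨hw, -, ψ, hψ, -⟩ := h
  haveI : FiniteDimensional ℂ (CV T.W X) := Module.Finite.of_basis (rb T.W X)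
  rw [← finrank_gC]
  exact even_sy (sy_om hψ hw)

/-- **Exceptional members.** -/
theorem exists_spl {ι : Type*} (x : ι → 𝒱.Obj) (hx : ∀ i, ∃ ψ, IsPolarisation T (x i) ψ)
    (hind : ∀ F : Finset ι, Ind (LT T) x F) (r : ι → ℕ)
    (hr : ∀ i, r i ≤ 1 ∨ Simp (LT T) (x i) (r i)) {Z : 𝒱.Obj}
    (hZ : ∃ ψ, IsPolarisation T Z ψ) :
    ∃ S : Finset ι, 2 * ∑ i ∈ S, r i ≤ transBetti T Z ∧
      ∀ P Y : 𝒱.Obj, Built T (x '' (S : Set ι)ᶜ) P →
        Built T (insert Z (x '' (S : Set ι))) Y → Spl T P Y := by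
  classical
  choose ψ hψ using hx
  obtain ⟨φ, hφ⟩ := hZ
  obtain ⟨S, hS, h1⟩ := exists_S (P := polS hφ) (Q := fun i => polS (hψ i)) hind r hr
    (V0 := (spH T Z).baseChange ℂ) (fun D hD v hv => base_le_inv hv D hD)
  refine ⟨S, ?_, ?_⟩
  · have h2 := transBetti_eq (T := T) (X := Z)
    rw [finrank_base] at hS
    have h3 : finrank ℂ (CV T.W Z) = finrank T.W.K (T.W.H Z) := Module.finrank_baseChange
    omega
  · intro P Y hP hY D hD
    obtain ⟨F, hF, hP'⟩ := hP.exists_finset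
    obtain ⟨D', hD', h2, h3, h4⟩ := h1 F (by
      rw [Finset.disjoint_left]
      intro i hi hi'
      exact hF (Finset.mem_coe.2 hi) (Finset.mem_coe.2 hi')) D hD
    refine ⟨D', hD', ?_, ?_⟩
    · have h5 := hP'.kill (sub_mem hD' hD) (by
        rintro _ ⟨i, hi, rfl⟩
        change D' (x i) - D (x i) = 0
        rw [h2 i (Finset.mem_coe.1 hi), sub_self])
      change D' P - D P = 0 at h5
      exact sub_eq_zero.1 h5
    · refine hY.kill hD' ?_
      rintro _ (rfl | ⟨i, hi, rfl⟩)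
      · exact h4
      · exact h3 i (Finset.mem_coe.1 hi)

/-- **The general theorem.** -/
theorem general {Q : ClassPred T.W}
    (hQ : ∀ (X : 𝒱.Obj) (j : ℕ) (c : T.W.H X), Q.P X j c → IsHodge T X j c)
    {ι : Type v} (x : ι → 𝒱.Obj) (hx : ∀ i, ∃ ψ, IsPolarisation T (x i) ψ)
    (hind : ∀ F : Finset ι, IF.Ind (IF.LT T) x (F : Set ι))
    (hg : ∀ i n, AllIn T Q (pw (x i) n)) (r : ι → ℕ)
    (hr : ∀ i, r i ≤ 1 ∨ Simp (LT T) (x i) (r i)) {Z : 𝒱.Obj}
    (hZ : ∃ ψ, IsPolarisation T Z ψ) : ∃ S : Finset ι, 2 * ∑ i ∈ S, r i ≤ transBetti T Z ∧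
      ∀ P Y : 𝒱.Obj, Fr T Q (x '' (S : Set ι)ᶜ) P →
        IF.Built T (insert Z (x '' (S : Set ι))) Y → ∀ n,
          AllIn T Q (pw P n) ∧ Spl T (pw P n) (pw Y n) := by
  obtain ⟨S, hS1, hS2⟩ := exists_spl x hx hind r hr hZ
  refine ⟨S, hS1, fun P Y hP hY n => ⟨?_, ?_⟩⟩
  · refine (hP.pw n).allIn hQ (N := HI.Wd x (S : Set ι)ᶜ) (fun _ _ hA hB => .prod hA hB) ?_
      fun A hA => hA.allIn hind hg
    rintro _ ⟨i, hi, rfl⟩
    exact .of hi
  · exact hS2 _ _ ((hP.pw n).built hQ) (IG.built_pow hY n)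

end

end Pool.Agent.L5helper28.HL
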