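import Pool.Agent.L5helper28.HL.Defs
import Pool.Agent.L5helper28.HL.Spl
import Pool.Agent.L5helper28.HG.Main

/-!
# Products with an arbitrary variety, with the bound by Betti numbers
-/

set_option autoImplicit false
set_option linter.unusedSectionVars false

open CategoryTheory AlgebraicGeometry TensorProduct

universe u v

namespace Pool.Agent.L5helper28.HL

open Module
open Pool.Agent.H914 Pool.Agent.H914.VarClass Pool.Agent.H914.VarClass.Obj
  Pool.Agent.H914.WeilCohomology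
open Pool.Agent.Y121 Pool.Agent.Y121.AHS Pool.Agent.N996 Pool.Agent.N996.FP
open Pool.Agent.Y133.Half (pw ClassPred Sys)
open Pool.Agent.L5helper28.CA (AllIn prod_in snd_in)
open Pool.Agent.L5helper28.IF (Spl)
open Pool.Agent.L5helper28.IG (algPred)
open Pool.Agent.L5helper28.IH (ind_kinds MxC)
open Pool.Agent.L5helper28.HI (Fr Sm)
open Pool.Agent.L5helper28.HG (coh AlgebraicIn Polarised Independent hodgeNumber
  HodgeKunneth Built IsNonzero power power_eq polarised_of kinds_of noMor_of independent_iff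
  built_of kunneth_of number IsSummand mem_gr_of_number)

noncomputable section

variable {k : Type u} [Field k] {𝒱 : VarClass k} {ops : CycleOps 𝒱} {T : HodgeTheory ops}
  {P Y X : 𝒱.Obj}

set_option maxHeartbeats 400000

/-- the families -/
theorem family {Q : ClassPred T.W} (hL : ∀ V, AlgebraicIn T V 1) {ι : Type v} {X : ι → 𝒱.Obj}
    {b : ι → ℕ} (hX' : ∀ i, ∃ ψ, FP.IsPolarisation T (X i) ψ)
    (h : NonIsogenous (fun i => coh T (X i)) b ∨
      Independent (fun i => coh T (X i)) ∧ ∀ i, b i = 2 ∧ ∀ n, AllIn T Q (power (X i) n)) :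
    (∀ F : Finset ι, IF.Ind (IF.LT T) X (F : Set ι)) ∧ (∀ i n, AllIn T Q (pw (X i) n)) ∧
      ∀ i, Even (b i) ∧ (b i / 2 ≤ 1 ∨ Simp (IF.LT T) (X i) (b i / 2)) := by
  rcases h with ⟨w, h1, h2⟩ | ⟨h1, h2⟩
  · refine ⟨ind_kinds hX' (fun i => (kinds_of (h1 i).1 (hX' i) hL).1)
      fun i j hij => noMor_of (h2 i j hij), fun i n j c hc => ?_, fun i => ?_⟩
    · obtain ⟨z, hz, rfl⟩ := (kinds_of (h1 i).1 (hX' i) hL).2 n j c hc
      exact Q.cl hz
    · have h3 : finrank T.W.K (T.W.gr (X i) (w i)) = b i := by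
        rw [← (h1 i).2]
        exact mem_gr_of_number.symm
      rcases (kinds_of (h1 i).1 (hX' i) hL).1 with ⟨hw, he⟩ | hm
      · have h4 : b i = 2 := by
          rw [← h3, hw]
          exact he.2
        rw [h4]
        exact ⟨even_two, Or.inl (by norm_num)⟩
      · have h5 := even_gr hm
        rw [h3] at h5
        refine ⟨h5, Or.inr (simp_max hm ?_)⟩
        rw [finrank_gC, h3]
        omega
  · refine ⟨fun F => (IF.indep_of (independent_iff.1 h1)).ind F, fun i n => ?_, fun i => ?_⟩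
    · rw [← power_eq]
      exact (h2 i).2 n
    · rw [(h2 i).1]
      exact ⟨even_two, Or.inl (by norm_num)⟩

theorem number_le {n : ℕ} (h : n ≤ transBetti T X) : n + hodgeNumber T X ≤ HG.betti T X := by
  have h0 : HG.betti T X = finrank T.W.K (T.W.H X) := by
    rw [HG.betti, number]
    have : ({c | True} : Set (T.W.H X)) = Set.univ := rfl
    rw [this, Submodule.span_univ, finrank_top]
  rw [h0]
  have h1 := (Submodule.span T.W.K {c : T.W.H X | ∃ j, IsHodge T X j c}).finrank_quotient_add_finrank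
  rw [← h1]
  exact Nat.add_le_add_right h _

theorem half_sum {ι : Type v} {b : ι → ℕ} (h : ∀ i, Even (b i)) (S : Finset ι) :
    2 * ∑ i ∈ S, b i / 2 = ∑ i ∈ S, b i := by
  rw [Finset.mul_sum]
  refine Finset.sum_congr rfl fun i _ => ?_
  obtain ⟨m, hm⟩ := h i
  omega

theorem alg_hodge (X : 𝒱.Obj) (j : ℕ) (c : T.W.H X) (h : (algPred T).P X j c) :
    IsHodge T X j c := by
  obtain ⟨z, hz, rfl⟩ := h
  exact T.cyc X j z hz

theorem sm_of {m : ℕ} {P : Fin m → 𝒱.Obj} {R : 𝒱.Obj} (h : IsSummand T P R) :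
    Sm T (algPred T) P R := by
  obtain ⟨u, v, h1, h2⟩ := h
  refine ⟨fun a => T.W.cl _ (u a), fun a => T.W.cl _ (v a), fun a => ⟨?_, ?_⟩, h2⟩
  · obtain ⟨j, hj⟩ := (h1 a).1
    exact ⟨j, u a, hj, rfl⟩
  · obtain ⟨j, hj⟩ := (h1 a).2
    exact ⟨j, v a, hj, rfl⟩

theorem fr_of {S : Set 𝒱.Obj} (h : MotiveFrom T S P) : Fr T (algPred T) S P := by
  induction h with
  | of h => exact .of h
  | prod _ _ h1 h2 => exact .prod h1 h2
  | mot _ h2 h1 => exact .mot h1 (sm_of h2)

/-- **The theorem.** -/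
theorem main (hL : ∀ V, AlgebraicIn T V 1) {ι : Type v} (X : ι → 𝒱.Obj) (b : ι → ℕ)
    (hX : ∀ i, Polarised (coh T (X i)))
    (h : NonIsogenous (fun i => coh T (X i)) b ∨
      Independent (fun i => coh T (X i)) ∧ ∀ i, b i = 2 ∧ ∀ n, HG.HodgeConjecture T (power (X i) n))
    (Z : 𝒱.Obj) (hZ : Polarised (coh T Z)) : ∃ S : Finset ι,
      ∑ i ∈ S, b i + hodgeNumber T Z ≤ HG.betti T Z ∧ ∀ P Y : 𝒱.Obj,
        MotiveFrom T (X '' {i | i ∉ S}) P → Built T (insert Z (X '' {i | i ∈ S})) Y →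
        IsNonzero (T.W.H P) →
          HodgeKunneth T P Y ∧ HG.HodgeConjecture T P ∧
          (HG.HodgeConjecture T (P.prod Y) ↔ HG.HodgeConjecture T Y) ∧
          (Y.dim ≤ 3 → HG.HodgeConjecture T (P.prod Y)) := by
  have hX' := fun i => polarised_of (hX i)
  obtain ⟨hind, hg, hr⟩ := family (Q := algPred T) hL hX' h
  obtain ⟨S, h1, h2⟩ := general (Q := algPred T) alg_hodge X hX' hind hg (fun i => b i / 2)
    (fun i => (hr i).2) (polarised_of hZ)
  rw [half_sum fun i => (hr i).1] at h1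
  refine ⟨S, number_le h1, fun P Y hP hY hP1 => ?_⟩
  obtain ⟨h4, h5⟩ := h2 P Y (fr_of hP) (built_of hY) 0
  exact ⟨kunneth_of h5, h4, ⟨fun hc => snd_in (Q := algPred T) hP1 hc,
    fun hc => prod_in (Q := algPred T) h5 h4 hc⟩, fun hd =>
    prod_in (Q := algPred T) h5 h4 (HD.allIn_three (Q := algPred T) (hL Y) hd)⟩

end

end Pool.Agent.L5helper28.HL
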