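import Pool.Agent.L5helper28.IF.Tran

/-!
# Commuting self-adjoint operators given by essential indices, counted with the ranks
-/

set_option autoImplicit false
set_option linter.unusedSectionVars false

open Module ComplexConjugate

namespace Pool.Agent.L5helper28.HL

open Pool.Agent.L5helper28.IF

noncomputable section

variable {J : Type*} {V : J → Type} [∀ j, AddCommGroup (V j)] [∀ j, Module ℂ (V j)]
  {ι : Type*} {L : Submodule ℂ (Ops V)} {x : ι → J} {z : J} {s : StD (V z)}

/-- `r` linearly independent commuting self-adjoint operators in `qq` which are orthogonal to the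
centraliser -/
def Cart (L : Submodule ℂ (Ops V)) (x : ι → J) {z : J} (s : StD (V z)) (S : Set ι) (i : ι)
    (r : ℕ) : Prop :=
  ∃ T : Fin r → End ℂ (V z), (∀ a, T a ∈ qq L x s S i ∧ s.st (T a) = T a) ∧
    (∀ a b, T a * T b = T b * T a) ∧ LinearIndependent ℂ T ∧
    ∀ a, ∀ y : End ℂ (V z), (∀ q ∈ qq L x s S i, q * y = y * q) → tr (T a * y) = 0

theorem cart_one {S : Set ι} (hL : ∀ D ∈ L, ∀ E ∈ L, D * E - E * D ∈ L) (hst : StC L x s S) {i : ι}
    (hn : ∃ a ∈ qq L x s S i, ∃ b ∈ qq L x s S i, a * b ≠ b * a) {r : ℕ} (hr : r ≤ 1) :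
    Cart L x s S i r := by
  obtain ⟨T, h1, h2, h3, h4⟩ := qq_bracket hL hst hn
  refine ⟨fun _ => T, fun _ => ⟨h1, h2⟩, fun _ _ => rfl, ?_, fun _ => h4⟩
  haveI : Subsingleton (Fin r) := ⟨fun a b => Fin.ext (by omega)⟩
  rw [Fintype.linearIndependent_iff]
  intro c hc a
  rw [Fintype.sum_subsingleton _ a] at hc
  exact (smul_eq_zero.1 hc).resolve_right h3

theorem cart_ab {S : Set ι} {i : ι} {r : ℕ} (h : Cart L x s S i r)
    (hn : ¬∃ a ∈ qq L x s S i, ∃ b ∈ qq L x s S i, a * b ≠ b * a) : r = 0 := by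
  by_contra hr
  obtain ⟨T, h1, h2, h3, h4⟩ := h
  let a : Fin r := ⟨0, Nat.pos_of_ne_zero hr⟩
  have h5 := h4 a (T a) fun q hq => by
    by_contra h6
    exact hn ⟨q, hq, T a, (h1 a).1, h6⟩
  refine h3.ne_zero a (s.pos _ ?_)
  rw [(h1 a).2]
  exact h5

/-- **Commuting self-adjoint operators.** -/
theorem exists_torus [FiniteDimensional ℂ (V z)] (hL : ∀ D ∈ L, ∀ E ∈ L, D * E - E * D ∈ L)
    {S : Finset ι} (hst : StC L x s (S : Set ι)) (r : ι → ℕ)
    (hr : ∀ i ∈ S, r i ≤ 1 ∨ Cart L x s (S : Set ι) i (r i))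
    (hchar : ∀ A : Finset ι, A ⊆ S → (∀ i ∈ A, ∀ a ∈ qq L x s (S : Set ι) i,
      ∀ b ∈ qq L x s (S : Set ι) i, a * b = b * a) → A.card ≤ finrank ℂ (zz L x z (S : Set ι))) :
    ∃ (κ : Type) (_ : Fintype κ) (T : κ → End ℂ (V z)), ∑ i ∈ S, r i ≤ Fintype.card κ ∧
      (∀ i, T i ∈ KF L x z ∅ ∧ s.st (T i) = T i) ∧ (∀ i j, T i * T j = T j * T i) ∧
      LinearIndependent ℂ T := by
  classical
  let P : ι → Prop := fun i => ∃ a ∈ qq L x s (S : Set ι) i, ∃ b ∈ qq L x s (S : Set ι) i,
    a * b ≠ b * a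
  obtain ⟨A, hA⟩ : ∃ A : Finset ι, A = S.filter P := ⟨_, rfl⟩
  obtain ⟨B, hB⟩ : ∃ B : Finset ι, B = S.filter fun i => ¬P i := ⟨_, rfl⟩
  have hAB : ∑ i ∈ A, r i + ∑ i ∈ B, r i = ∑ i ∈ S, r i := by
    rw [hA, hB]
    exact Finset.sum_filter_add_sum_filter_not S P r
  have hAP : ∀ i ∈ A, i ∈ S ∧ P i := fun i hi => by
    rw [hA, Finset.mem_filter] at hi; exact hi
  have hBP : ∀ i ∈ B, i ∈ S ∧ ¬P i := fun i hi => by
    rw [hB, Finset.mem_filter] at hi; exact hi
  have hBr : ∑ i ∈ B, r i ≤ B.card := by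
    rw [Finset.card_eq_sum_ones]
    refine Finset.sum_le_sum fun i hi => ?_
    rcases hr i (hBP i hi).1 with h | h
    · exact h
    · rw [cart_ab h (hBP i hi).2]; exact Nat.zero_le _
  have hBc : B.card ≤ finrank ℂ (zz L x z (S : Set ι)) := by
    refine hchar B (by rw [hB]; exact Finset.filter_subset _ _) fun i hi a ha b hb => ?_
    by_contra h
    exact (hBP i hi).2 ⟨a, ha, b, hb, h⟩
  obtain ⟨m, f, hm, hf, hfli, -⟩ := s.exists_sa_basis (A := zz L x z (S : Set ι)) fun a ha =>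
    zz_st hL hst ha
  have hT : ∀ i : Fin A.card, Cart L x s (S : Set ι) (A.equivFin.symm i)
      (r (A.equivFin.symm i)) := fun i => by
    obtain ⟨h1, h2⟩ := hAP _ (A.equivFin.symm i).2
    exact (hr _ h1).elim (fun h => cart_one hL hst h2 h) id
  choose T hTq hTc hTl hTy using hT
  have hinj : ∀ i j : Fin A.card, i ≠ j →
      ((A.equivFin.symm i : A) : ι) ≠ ((A.equivFin.symm j : A) : ι) := by
    intro i j hij h
    exact hij (A.equivFin.symm.injective (Subtype.ext h))
  have hqT : ∀ (i j : Fin A.card), i ≠ j → ∀ q ∈ qq L x s (S : Set ι) (A.equivFin.symm i),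
      ∀ b, q * T j b = T j b * q := fun i j hij q hq b =>
    qq_comm hL hst (hinj i j hij) hq (hTq j b).1
  have hTT : ∀ i a j b, T i a * T j b = T j b * T i a := by
    intro i a j b
    by_cases h : i = j
    · subst h
      exact hTc i a b
    · exact hqT i j h _ (hTq i a).1 b
  have hfq : ∀ i (j : Fin A.card), ∀ q ∈ qq L x s (S : Set ι) (A.equivFin.symm j),
      f i * q = q * f i := fun i j q hq =>
    ((hf i).1.2.1 _ (KF_mono (Set.empty_subset _) hq.1)).symm
  refine ⟨(Σ i : Fin A.card, Fin (r (A.equivFin.symm i))) ⊕ Fin m, inferInstance,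
    Sum.elim (fun p => T p.1 p.2) f, ?_, ?_, ?_, ?_⟩
  · rw [Fintype.card_sum, Fintype.card_sigma, Fintype.card_fin]
    simp only [Fintype.card_fin]
    have h1 : ∑ i : Fin A.card, r (A.equivFin.symm i) = ∑ i ∈ A, r i := by
      rw [Equiv.sum_comp A.equivFin.symm (fun i : A => r i)]
      exact Finset.sum_coe_sort A r
    rw [h1, ← hAB]
    omega
  · rintro (p | i)
    · exact ⟨KF_mono (Set.empty_subset _) (hTq _ p.2).1.1, (hTq _ p.2).2⟩
    · exact ⟨(hf i).1.1, (hf i).2⟩
  · rintro (p | i) (p' | j)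
    · exact hTT _ _ _ _
    · exact (hfq j p.1 _ (hTq _ p.2).1).symm
    · exact hfq i p'.1 _ (hTq _ p'.2).1
    · exact (hf j).1.2.1 _ (hf i).1.1
  · rw [Fintype.linearIndependent_iff]
    intro c hc
    rw [Fintype.sum_sum_type, Fintype.sum_sigma] at hc
    simp only [Sum.elim_inl, Sum.elim_inr] at hc
    have h1 : ∀ i, ∑ a, c (Sum.inl ⟨i, a⟩) • T i a = 0 := by
      intro i
      obtain ⟨W, hW⟩ : ∃ W : Fin A.card → End ℂ (V z), ∀ j, W j = ∑ a, c (Sum.inl ⟨j, a⟩) • T j a :=
        ⟨_, fun _ => rfl⟩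
      have hWq : ∀ j, W j ∈ qq L x s (S : Set ι) (A.equivFin.symm j) := fun j => by
        rw [hW]
        exact sum_mem fun a _ => Submodule.smul_mem _ _ (hTq j a).1
      -- the operator commutes with `qq`
      have h2 : W i = -(∑ j ∈ Finset.univ.erase i, W j + ∑ j, c (Sum.inr j) • f j) := by
        rw [eq_neg_iff_add_eq_zero, ← add_assoc, Finset.add_sum_erase _ _ (Finset.mem_univ i)]
        rw [← hc]
        congr 1
        exact Finset.sum_congr rfl fun j _ => hW j
      have h3 : ∀ q ∈ qq L x s (S : Set ι) (A.equivFin.symm i), q * W i = W i * q := by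
        intro q hq
        rw [h2, mul_neg, neg_mul, mul_add, add_mul, Finset.mul_sum, Finset.sum_mul,
          Finset.mul_sum, Finset.sum_mul]
        congr 2
        · refine Finset.sum_congr rfl fun j hj => ?_
          rw [hW, Finset.mul_sum, Finset.sum_mul]
          refine Finset.sum_congr rfl fun b _ => ?_
          rw [mul_smul_comm, smul_mul_assoc, hqT i j (Finset.ne_of_mem_erase hj).symm q hq]
        · refine Finset.sum_congr rfl fun j _ => ?_
          rw [mul_smul_comm, smul_mul_assoc, hfq j i q hq]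
      rw [← hW i]
      refine s.pos _ ?_
      have h4 : s.st (W i) = ∑ a, conj (c (Sum.inl ⟨i, a⟩)) • T i a := by
        have h5 : ∀ F : Finset (Fin (r (A.equivFin.symm i))),
            s.st (∑ a ∈ F, c (Sum.inl ⟨i, a⟩) • T i a) =
              ∑ a ∈ F, conj (c (Sum.inl ⟨i, a⟩)) • T i a := by
          intro F
          induction F using Finset.induction_on with
          | empty => rw [Finset.sum_empty, Finset.sum_empty, s.zero]
          | insert a F ha ih =>
            rw [Finset.sum_insert ha, Finset.sum_insert ha, s.add, s.smul, ih, (hTq i a).2]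
        rw [hW]
        exact h5 _
      rw [h4, Finset.sum_mul, map_sum]
      refine Finset.sum_eq_zero fun a _ => ?_
      rw [smul_mul_assoc, map_smul, hTy i a _ h3, smul_zero]
    have h3 : ∑ i, ∑ a, c (Sum.inl ⟨i, a⟩) • T i a = 0 :=
      Finset.sum_eq_zero fun i _ => h1 i
    have h2 : ∑ j, c (Sum.inr j) • f j = 0 := by
      rw [← hc, h3, zero_add]
    rintro (⟨i, a⟩ | i)
    · exact Fintype.linearIndependent_iff.1 (hTl i) _ (h1 i) a
    · exact Fintype.linearIndependent_iff.1 hfli _ h2 i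

end

end Pool.Agent.L5helper28.HL
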